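import Pool.Agent.helper37.L5.Spec
import Pool.Agent.helper59.FI.Base

set_option autoImplicit false

namespace Pool.Agent.L5

open Pool.Agent.helper58.DC Pool.Agent.DI Pool.Agent.GR Pool.Agent.OB Pool.Agent.DR Pool.Agent.FI Pool.Agent.FI3 Pool.Agent.FI4 Pool.Agent.FI4I Pool.Agent.LE

open Classical in
/-- a finite sum over a subgroup as a Finset sum -/
lemma FRD5_fs {G : Type} [Group G] [Fintype G] (H : Subgroup G) (f : G → ℂ) :
    ∑ᶠ x ∈ (H : Set G), f x = ∑ x ∈ Finset.univ.filter (fun x : G => x ∈ H), f x := by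
  rw [finsum_mem_eq_finite_toFinset_sum _ (Set.toFinite (H : Set G))]
  refine Finset.sum_congr ?_ fun _ _ => rfl
  ext l
  rw [Set.Finite.mem_toFinset, Finset.mem_filter, SetLike.mem_coe]
  simp

open Classical in
lemma FRD5_card {G : Type} [Group G] [Fintype G] (H : Subgroup G) :
    ((Finset.univ.filter (fun x : G => x ∈ H)).card : ℂ) = Nat.card H := by
  have h := FRD5_fs H (fun _ => (1 : ℂ))
  rw [Finset.sum_const, nsmul_eq_mul, mul_one] at h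
  rw [← h, finsum_mem_eq_finite_toFinset_sum _ (Set.toFinite (H : Set G)), Finset.sum_const, nsmul_eq_mul, mul_one,
    ← Set.ncard_eq_toFinset_card (H : Set G) (Set.toFinite (H : Set G))]
  rfl

/-- a family of natural numbers with sum of squares `1` -/
lemma FRD5_nat {α : Type*} [DecidableEq α] (Z : Finset α) (N : α → ℕ) (h : ∑ z ∈ Z, N z ^ 2 = 1) :
    ∃ z₀ ∈ Z, N z₀ = 1 ∧ ∀ z ∈ Z, z ≠ z₀ → N z = 0 := by
  have h0 : ∃ z₀ ∈ Z, N z₀ ≠ 0 := by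
    by_contra hcon
    push Not at hcon
    rw [Finset.sum_eq_zero fun z hz => by rw [hcon z hz]; rfl] at h
    exact absurd h (by norm_num)
  obtain ⟨z₀, hz₀, hne⟩ := h0
  have h1 := Finset.add_sum_erase Z (fun z => N z ^ 2) hz₀
  rw [h] at h1
  have h2 : 1 ≤ N z₀ ^ 2 := Nat.one_le_iff_ne_zero.2 (pow_ne_zero 2 hne)
  have h3 : ∑ z ∈ Z.erase z₀, N z ^ 2 = 0 := by
    omega
  have h4 : N z₀ ^ 2 = 1 := by
    omega
  refine ⟨z₀, hz₀, ?_, fun z hz hzz => ?_⟩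
  · nlinarith [sq_nonneg ((N z₀ : ℤ) - 1), Nat.pos_of_ne_zero hne]
  · have h5 := (Finset.sum_eq_zero_iff.1 h3) z (Finset.mem_erase.2 ⟨hzz, hz⟩)
    exact (pow_eq_zero_iff (by norm_num : (2 : ℕ) ≠ 0)).1 h5

open Classical in
/-- the symmetric form of the multiplicity -/
lemma FRD5_mt {G : Type} [Group G] [Fintype G] {S H : Subgroup G} (hSH : S ≤ H) (φ : G → ℂ) {ζ : G → ℂ}
    (hζ : ζ ∈ IrrOn S) :
    ∑ x ∈ Finset.univ.filter (fun x : G => x ∈ H), ζ x * φ x⁻¹ = Nat.card S * mt S φ ζ := by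
  have hS0 : (Nat.card S : ℂ) ≠ 0 := Nat.cast_ne_zero.2 Nat.card_pos.ne'
  have h1 : (Nat.card S : ℂ) * mt S φ ζ = ∑ x ∈ Finset.univ.filter (fun x : G => x ∈ S), φ x * ζ x⁻¹ := by
    unfold FI.mt
    rw [mul_div_cancel₀ _ hS0, FRD5_fs]
  have h2 : ∑ x ∈ Finset.univ.filter (fun x : G => x ∈ S), φ x * ζ x⁻¹ =
      ∑ x ∈ Finset.univ.filter (fun x : G => x ∈ S), ζ x * φ x⁻¹ := by
    refine Finset.sum_nbij' (fun x => x⁻¹) (fun x => x⁻¹) ?_ ?_ ?_ ?_ ?_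
    · intro x hx
      rw [Finset.mem_filter] at hx ⊢
      exact ⟨Finset.mem_univ _, S.inv_mem hx.2⟩
    · intro x hx
      rw [Finset.mem_filter] at hx ⊢
      exact ⟨Finset.mem_univ _, S.inv_mem hx.2⟩
    · intro x _
      exact inv_inv x
    · intro x _
      exact inv_inv x
    · intro x _
      rw [inv_inv, mul_comm]
  rw [h1, h2]
  symm
  refine Finset.sum_subset ?_ ?_
  · intro x hx
    rw [Finset.mem_filter] at hx ⊢
    exact ⟨hx.1, hSH hx.2⟩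
  · intro x _ hx
    have : x ∉ S := fun h => hx (Finset.mem_filter.2 ⟨Finset.mem_univ _, h⟩)
    rw [IrrOn_zero hζ this, zero_mul]

theorem FRD5 (hFRC5 : FRC5_stmt) (hQRS : QRS_stmt) (hB2 : B2_stmt) : FRD5_stmt := by
  classical
  intro G _ _ S H hSH e hCF hee hort φ hφ hev
  haveI := Fintype.ofFinite G
  have hS0 : (Nat.card S : ℂ) ≠ 0 := Nat.cast_ne_zero.2 Nat.card_pos.ne'
  have hH0 : (Nat.card H : ℂ) ≠ 0 := Nat.cast_ne_zero.2 Nat.card_pos.ne'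
  have hform := hFRC5 G S H hSH e hCF hee hort φ hφ hev
  have hZfin : {ζ : G → ℂ | ζ ∈ IrrOn S ∧ cc ζ e = 1}.Finite := (IrrOn_fin S).subset fun ζ h => h.1
  set Z := hZfin.toFinset with hZ
  have hmemZ : ∀ ζ, ζ ∈ Z ↔ ζ ∈ IrrOn S ∧ cc ζ e = 1 := fun ζ => by
    rw [hZ, Set.Finite.mem_toFinset]
    rfl
  set Hf : Finset G := Finset.univ.filter (fun x : G => x ∈ H) with hHf
  have hmemH : ∀ x, x ∈ Hf ↔ x ∈ H := fun x => by rw [hHf, Finset.mem_filter]; simp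
  -- the formula with Finset sums
  have hA : ∀ x ∈ H, (Nat.card S : ℂ) * φ x = ∑ h ∈ Hf, ∑ ζ ∈ Z, mt S φ ζ * ζ (h⁻¹ * x * h) := by
    intro x hx
    rw [hform x hx, mul_div_cancel₀ _ hS0, FRD5_fs]
    refine Finset.sum_congr rfl fun h _ => ?_
    rw [finsum_mem_eq_finite_toFinset_sum _ hZfin]
  -- orthonormality
  have hB : (Nat.card H : ℂ) = ∑ x ∈ Hf, φ x * φ x⁻¹ := by
    have h1 := ((hB2 G H).2 φ hφ).2.2.2.2 φ hφ
    rw [if_pos rfl, finsum_eq_sum_of_fintype] at h1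
    rw [← h1]
    symm
    refine Finset.sum_subset (Finset.subset_univ _) ?_
    intro x _ hx
    have : x ∉ H := fun h => hx ((hmemH x).2 h)
    rw [IrrOn_zero hφ this, zero_mul]
  have hC : ∀ h ∈ Hf, ∀ ζ : G → ℂ, ∑ x ∈ Hf, ζ (h⁻¹ * x * h) * φ x⁻¹ = ∑ x ∈ Hf, ζ x * φ x⁻¹ := by
    intro h hh ζ
    rw [hmemH] at hh
    refine Finset.sum_nbij' (fun x => h⁻¹ * x * h) (fun x => h * x * h⁻¹) ?_ ?_ ?_ ?_ ?_
    · intro x hx
      rw [hmemH] at hx ⊢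
      exact H.mul_mem (H.mul_mem (H.inv_mem hh) hx) hh
    · intro x hx
      rw [hmemH] at hx ⊢
      exact H.mul_mem (H.mul_mem hh hx) (H.inv_mem hh)
    · intro x _
      group
    · intro x _
      group
    · intro x _
      have h1 := IrrOn_conj hφ (H.inv_mem hh) x⁻¹
      have h2 : (h⁻¹ * x * h)⁻¹ = h⁻¹ * x⁻¹ * h⁻¹⁻¹ := by group
      rw [h2, h1]
  have hD : (Nat.card S : ℂ) * Nat.card H = Nat.card H * (Nat.card S * ∑ ζ ∈ Z, mt S φ ζ ^ 2) := by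
    calc (Nat.card S : ℂ) * Nat.card H = ∑ x ∈ Hf, (Nat.card S * φ x) * φ x⁻¹ := by
          rw [hB, Finset.mul_sum]
          exact Finset.sum_congr rfl fun x _ => by ring
      _ = ∑ x ∈ Hf, ∑ h ∈ Hf, ∑ ζ ∈ Z, mt S φ ζ * (ζ (h⁻¹ * x * h) * φ x⁻¹) := by
          refine Finset.sum_congr rfl fun x hx => ?_
          rw [hA x ((hmemH x).1 hx), Finset.sum_mul]
          refine Finset.sum_congr rfl fun h _ => ?_
          rw [Finset.sum_mul]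
          exact Finset.sum_congr rfl fun ζ _ => by ring
      _ = ∑ h ∈ Hf, ∑ ζ ∈ Z, mt S φ ζ * ∑ x ∈ Hf, ζ (h⁻¹ * x * h) * φ x⁻¹ := by
          rw [Finset.sum_comm]
          refine Finset.sum_congr rfl fun h _ => ?_
          rw [Finset.sum_comm]
          exact Finset.sum_congr rfl fun ζ _ => by rw [Finset.mul_sum]
      _ = ∑ h ∈ Hf, ∑ ζ ∈ Z, mt S φ ζ * (Nat.card S * mt S φ ζ) := by
          refine Finset.sum_congr rfl fun h hh => ?_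
          refine Finset.sum_congr rfl fun ζ hζ => ?_
          rw [hC h hh ζ, hHf, FRD5_mt hSH φ ((hmemZ ζ).1 hζ).1]
      _ = Nat.card H * (Nat.card S * ∑ ζ ∈ Z, mt S φ ζ ^ 2) := by
          rw [Finset.sum_const, nsmul_eq_mul, hHf, FRD5_card]
          congr 1
          rw [Finset.mul_sum]
          exact Finset.sum_congr rfl fun ζ _ => by ring
  have hE : ∑ ζ ∈ Z, mt S φ ζ ^ 2 = 1 := by
    have h1 : (Nat.card S : ℂ) * Nat.card H * ∑ ζ ∈ Z, mt S φ ζ ^ 2 = (Nat.card S : ℂ) * Nat.card H * 1 := by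
      rw [mul_one]
      conv_rhs => rw [hD]
      ring
    exact mul_left_cancel₀ (mul_ne_zero hS0 hH0) h1
  have hN : ∀ ζ : G → ℂ, ∃ n : ℕ, ζ ∈ IrrOn S → mt S φ ζ = n := by
    intro ζ
    by_cases hζ : ζ ∈ IrrOn S
    · obtain ⟨n, hn⟩ := (hQRS G H S hSH φ hφ).1 ζ hζ
      exact ⟨n, fun _ => hn⟩
    · exact ⟨0, fun h => absurd h hζ⟩
  choose N hN using hN
  have hNsum : ∑ ζ ∈ Z, N ζ ^ 2 = 1 := by
    have h1 : ((∑ ζ ∈ Z, N ζ ^ 2 : ℕ) : ℂ) = 1 := by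
      rw [← hE]
      push_cast
      exact Finset.sum_congr rfl fun ζ hζ => by rw [hN ζ ((hmemZ ζ).1 hζ).1]
    exact_mod_cast h1
  obtain ⟨ζ₀, hζ₀, h1, h2⟩ := FRD5_nat Z N hNsum
  have hζ₀' := (hmemZ ζ₀).1 hζ₀
  have hm0 : mt S φ ζ₀ = 1 := by rw [hN ζ₀ hζ₀'.1, h1, Nat.cast_one]
  have hm : ∀ ζ ∈ Z, ζ ≠ ζ₀ → mt S φ ζ = 0 := fun ζ hζ hne => by
    rw [hN ζ ((hmemZ ζ).1 hζ).1, h2 ζ hζ hne, Nat.cast_zero]
  refine ⟨ζ₀, hζ₀'.1, hζ₀'.2, hm0, fun ζ' h3 h4 h5 => hm ζ' ((hmemZ ζ').2 ⟨h3, h4⟩) h5, ?_⟩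
  intro x hx
  rw [eq_div_iff hS0, mul_comm, hA x hx, FRD5_fs]
  refine Finset.sum_congr rfl fun h _ => ?_
  rw [Finset.sum_eq_single ζ₀, hm0, one_mul]
  · intro ζ hζ hne
    rw [hm ζ hζ hne, zero_mul]
  · intro h3
    exact absurd hζ₀ h3

end Pool.Agent.L5
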