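import Pool.Agent.helper37.L5.Spec
import Pool.Agent.helper27.FI4.TOG

set_option autoImplicit false

namespace Pool.Agent.L5

open Pool.Agent.helper58.DC Pool.Agent.DI Pool.Agent.GR Pool.Agent.OB Pool.Agent.DR Pool.Agent.FI Pool.Agent.FI3 Pool.Agent.FI4 Pool.Agent.FI4I Pool.Agent.LE

theorem TOG5 (hFTG : FTG5_stmt) (hLEI : LEI_stmt) (hECN : ECN_stmt) (hFEQ : FEQ_stmt) : TOG5_stmt := by
  classical
  intro p M hM G _ _ D x θ χ hRt c R hR hRD hne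
  haveI : Fact p.Prime := ⟨hM.pr⟩
  have hDp : IsPGroup p D := hRt.dfa.pgrp
  have hRn : nz R = ⊤ := top_le_iff.1 hR.1.2.2
  have hsub : ∀ g : G, ∑ᶠ C ∈ {C : Finset (Subgroup G) | (NCh p ⊤ R C ∧ C ≠ {R}) ∧ ∀ Q ∈ C, Q ≤ cjS g D},
      (-1 : ℂ) ^ (C.card + 1) * ((Nat.card (nrm C ⊓ cjS g (TT M D θ) : Subgroup G) : ℂ) *
        Le p M (nrm C ⊓ nz (Ec p c (cjS g D))) (cjF g θ)) =
      - ((Nat.card (TT M D θ) : ℂ) * Le p M (nz (Ec p c D)) θ) := by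
    intro g
    have hF : ∀ P Q : Subgroup G, (nz (cjS g P) = cjS g (nz P) ∧ (cjS g P ≤ cjS g Q ↔ P ≤ Q) ∧
        (cjS g P = P ↔ g ∈ nz P) ∧ Nat.card (cjS g P) = Nat.card P) := by
      intro P Q
      obtain ⟨-, ⟨-, h2, h3, h4, -, h6⟩, -⟩ := hFEQ G M g 1 P Q ⊤ θ θ χ
      exact ⟨h2, h3, h4, h6⟩
    have hcom : ∀ c ∈ cjS g D, ∀ d ∈ cjS g D, c * d = d * c := by
      intro c hc d hd
      rw [mem_cjS] at hc hd
      have h1 := hRt.com _ hc _ hd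
      have h2 : g * (g⁻¹ * c * g * (g⁻¹ * d * g)) * g⁻¹ = g * (g⁻¹ * d * g * (g⁻¹ * c * g)) * g⁻¹ := by
        rw [h1]
      have h3 : g * (g⁻¹ * c * g * (g⁻¹ * d * g)) * g⁻¹ = c * d := by group
      have h4 : g * (g⁻¹ * d * g * (g⁻¹ * c * g)) * g⁻¹ = d * c := by group
      rw [h3, h4] at h2
      exact h2
    have hpg : IsPGroup p (cjS g D) := hDp.map _
    have hRg : cjS g R = R := (hF R R).2.2.1.2 (by rw [hRn]; trivial)
    have hRle : R ≤ cjS g D := by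
      rw [← hRg]
      exact (hF R D).2.1.2 hRD
    obtain ⟨-, hE2, -⟩ := hECN p c hM.pr G D hDp hRt.com
    obtain ⟨-, -, hE3, -⟩ := hECN p c hM.pr G (cjS g D) hpg hcom
    have hE : Ec p c (cjS g D) = cjS g (Ec p c D) := hE2 g
    have hEne : ¬ Ec p c (cjS g D) ≤ R := by
      rw [hE, ← hRg]
      intro h
      exact hne ((hF (Ec p c D) R).2.1.1 h)
    have hTD : TT M D θ ≤ nz D := fun t ht => (mem_TT.1 ht).1
    have hT1 : cjS g (TT M D θ) ≤ nz (Ec p c (cjS g D)) := by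
      refine le_trans ?_ hE3
      rw [(hF D D).1]
      exact (hF (TT M D θ) (nz D)).2.1.2 hTD
    have hset : {C : Finset (Subgroup G) | (NCh p ⊤ R C ∧ C ≠ {R}) ∧ ∀ Q ∈ C, Q ≤ cjS g D} =
        {C : Finset (Subgroup G) | PCh p (cjS g D) R C ∧ C ≠ {R}} := by
      ext C
      constructor
      · rintro ⟨⟨h1, h2⟩, h3⟩
        exact ⟨⟨h1.ch.chain, h1.ch.mem, h1.ch.bot, h3, h1.ch.pg⟩, h2⟩
      · rintro ⟨h1, h2⟩
        refine ⟨⟨⟨⟨h1.chain, h1.mem, h1.bot, fun Q _ => le_top, h1.pg⟩, ?_⟩, h2⟩, h1.le⟩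
        intro Q hQ R' hR' _
        exact TOG_le_nz (cjS g D) hcom Q R' (h1.le Q hQ) (h1.le R' hR')
    rw [hset]
    have hmain := hFTG G p (cjS g D) (nz (Ec p c (cjS g D))) R (Ec p c (cjS g D)) hpg hcom hRle Ec_le hEne le_rfl
      (by rw [hRn]; exact le_top)
      (fun K => (Nat.card (K ⊓ cjS g (TT M D θ) : Subgroup G) : ℂ) * Le p M K (cjF g θ))
    have hfin : ({C : Finset (Subgroup G) | PCh p (cjS g D) R C ∧ C ≠ {R}}).Finite := Set.toFinite _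
    have h1 : ∑ᶠ C ∈ {C : Finset (Subgroup G) | PCh p (cjS g D) R C ∧ C ≠ {R}},
        (-1 : ℂ) ^ (C.card + 1) * ((Nat.card (nrm C ⊓ cjS g (TT M D θ) : Subgroup G) : ℂ) *
          Le p M (nrm C ⊓ nz (Ec p c (cjS g D))) (cjF g θ)) =
        ∑ᶠ C ∈ {C : Finset (Subgroup G) | PCh p (cjS g D) R C ∧ C ≠ {R}},
          (-1 : ℂ) ^ (C.card + 1) * ((Nat.card ((nz (Ec p c (cjS g D)) ⊓ nrm C) ⊓ cjS g (TT M D θ) : Subgroup G) : ℂ) *
            Le p M (nz (Ec p c (cjS g D)) ⊓ nrm C) (cjF g θ)) := by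
      refine finsum_mem_congr rfl fun C _ => ?_
      have e1 : (nz (Ec p c (cjS g D)) ⊓ nrm C) ⊓ cjS g (TT M D θ) = nrm C ⊓ cjS g (TT M D θ) := by
        rw [inf_comm (nz (Ec p c (cjS g D))) (nrm C), inf_assoc, inf_eq_right.2 hT1]
      rw [e1, inf_comm (nrm C) (nz (Ec p c (cjS g D)))]
    rw [h1, hmain]
    have e2 : nz (Ec p c (cjS g D)) ⊓ cjS g (TT M D θ) = cjS g (TT M D θ) := inf_eq_right.2 hT1
    have e3 : nz (Ec p c (cjS g D)) = cjS g (nz (Ec p c D)) := by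
      rw [hE]
      exact (hF (Ec p c D) D).1
    rw [e2, (hF (TT M D θ) D).2.2.2, e3, hLEI p M hM G g (nz (Ec p c D)) θ]
  -- exchange of the sums
  have hfinS : ({C : Finset (Subgroup G) | NCh p ⊤ R C ∧ C ≠ {R}}).Finite := Set.toFinite _
  haveI : Fintype G := Fintype.ofFinite G
  rw [finsum_mem_eq_finite_toFinset_sum _ hfinS]
  have h1 : ∀ C : Finset (Subgroup G), (-1 : ℂ) ^ (C.card + 1) *
      ∑ᶠ g ∈ {g : G | ∀ Q ∈ C, Q ≤ cjS g D},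
        (Nat.card (nrm C ⊓ cjS g (TT M D θ) : Subgroup G) : ℂ) * Le p M (nrm C ⊓ nz (Ec p c (cjS g D))) (cjF g θ) =
      ∑ g : G, if (∀ Q ∈ C, Q ≤ cjS g D) then (-1 : ℂ) ^ (C.card + 1) *
        ((Nat.card (nrm C ⊓ cjS g (TT M D θ) : Subgroup G) : ℂ) *
          Le p M (nrm C ⊓ nz (Ec p c (cjS g D))) (cjF g θ)) else 0 := by
    intro C
    have hfinG : ({g : G | ∀ Q ∈ C, Q ≤ cjS g D}).Finite := Set.toFinite _
    rw [finsum_mem_eq_finite_toFinset_sum _ hfinG, Finset.mul_sum, ← Finset.sum_filter]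
    refine Finset.sum_congr ?_ fun _ _ => rfl
    ext g
    simp
  rw [Finset.sum_congr rfl fun C _ => h1 C, Finset.sum_comm]
  have h2 : ∀ g : G, ∑ C ∈ hfinS.toFinset, (if (∀ Q ∈ C, Q ≤ cjS g D) then (-1 : ℂ) ^ (C.card + 1) *
        ((Nat.card (nrm C ⊓ cjS g (TT M D θ) : Subgroup G) : ℂ) *
          Le p M (nrm C ⊓ nz (Ec p c (cjS g D))) (cjF g θ)) else 0) =
      - ((Nat.card (TT M D θ) : ℂ) * Le p M (nz (Ec p c D)) θ) := by
    intro g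
    rw [← hsub g]
    have hfin3 : ({C : Finset (Subgroup G) | (NCh p ⊤ R C ∧ C ≠ {R}) ∧ ∀ Q ∈ C, Q ≤ cjS g D}).Finite :=
      Set.toFinite _
    rw [finsum_mem_eq_finite_toFinset_sum _ hfin3, ← Finset.sum_filter]
    refine Finset.sum_congr ?_ fun _ _ => rfl
    ext C
    simp
  rw [Finset.sum_congr rfl fun g _ => h2 g, Finset.sum_const, Finset.card_univ, nsmul_eq_mul,
    ← Nat.card_eq_fintype_card]
  ring

end Pool.Agent.L5
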